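import Pool.Agent.Helper72.BP.Defs2

/-!
PROJECT BP, module BP-O3: near the base point `γ`, `1 + W` are invertible and `cay W` is orthogonal; the numbers under the square roots are positive.

near_inv: `γ ↦ det γ` is continuous on `ι → ι → ℝ` (Continuous.matrix_det) and 1 at γ = 1; `Metric.continuousAt_iff` with the sup metric on ι → ι → ℝ
(`dist_pi_lt_iff`) gives δ. In the same way det (1 + W) is near 1 for W near 0. Orthogonality: Wᵀ = -W, A := 1 + W, Aᵀ = 1 - W, both have the same determinant,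
cay W = Aᵀ A⁻¹, (cay W)ᵀ = (A⁻¹)ᵀ A = (Aᵀ)⁻¹ A (Matrix.transpose_nonsing_inv), A and Aᵀ commute, so (cay W)ᵀ cay W = (Aᵀ)⁻¹ A Aᵀ A⁻¹ = 1;
the other product by `Matrix.mul_eq_one_comm`.
near_sq: rho G ε 1 a b = 0 (Matrix.transpose_one, one_mul, mul_one, ring), and γ ↦ rho G ε γ a b is continuous, finitely many (a, b): δ with |rho| < 4 dl.
dl > 0: Ix p κ is nonempty (it contains inl 0), so card (Mu) > 0.
-/

set_option autoImplicit false

namespace Pool.Agent.Helper72.BP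

open MvPolynomial

private lemma inv_near_of_cont {ι : Type} [Fintype ι] (f : (ι → ι → ℝ) → ℝ) (hf : Continuous f) (x0 : ι → ι → ℝ)
    (η : ℝ) (hη : 0 < η) : ∃ δ : ℝ, 0 < δ ∧ ∀ x : ι → ι → ℝ, (∀ i j, |x i j - x0 i j| < δ) → |f x - f x0| < η := by
  obtain ⟨δ, hδ, h⟩ := Metric.continuousAt_iff.mp (hf.continuousAt (x := x0)) η hη
  refine ⟨δ, hδ, fun x hx => ?_⟩
  have h1 : dist x x0 < δ :=
    (dist_pi_lt_iff hδ).2 fun i => (dist_pi_lt_iff hδ).2 fun j => by rw [Real.dist_eq]; exact hx i j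
  have h2 := h h1
  rwa [Real.dist_eq] at h2

private lemma inv_near_of_cont2 {ι β : Type} [Fintype ι] [Fintype β] (f : (ι → ι → ℝ) → β → ℝ) (hf : Continuous f)
    (x0 : ι → ι → ℝ) (η : ℝ) (hη : 0 < η) :
    ∃ δ : ℝ, 0 < δ ∧ ∀ x : ι → ι → ℝ, (∀ i j, |x i j - x0 i j| < δ) → ∀ b, |f x b - f x0 b| < η := by
  obtain ⟨δ, hδ, h⟩ := Metric.continuousAt_iff.mp (hf.continuousAt (x := x0)) η hη
  refine ⟨δ, hδ, fun x hx b => ?_⟩
  have h1 : dist x x0 < δ :=
    (dist_pi_lt_iff hδ).2 fun i => (dist_pi_lt_iff hδ).2 fun j => by rw [Real.dist_eq]; exact hx i j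
  have h2 := (dist_pi_lt_iff hη).1 (h h1) b
  rwa [Real.dist_eq] at h2

private lemma inv_cay_orth {τ : Type} [Fintype τ] [DecidableEq τ] (W : Matrix τ τ ℝ) (hW : W.transpose = -W)
    (hu : IsUnit (1 + W).det) : (cay W).transpose * cay W = 1 := by
  have hT : (1 + W).transpose = 1 - W := by
    rw [Matrix.transpose_add, Matrix.transpose_one, hW, sub_eq_add_neg]
  have hT2 : (1 - W).transpose = 1 + W := by
    rw [← hT, Matrix.transpose_transpose]
  have hu2 : IsUnit (1 - W).det := by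
    rw [← hT, Matrix.det_transpose]; exact hu
  have hc : (1 + W) * (1 - W) = (1 - W) * (1 + W) := by noncomm_ring
  unfold cay
  rw [Matrix.transpose_mul, Matrix.transpose_nonsing_inv, hT, hT2]
  calc (1 - W)⁻¹ * (1 + W) * ((1 - W) * (1 + W)⁻¹)
      = (1 - W)⁻¹ * ((1 + W) * (1 - W)) * (1 + W)⁻¹ := by simp only [Matrix.mul_assoc]
    _ = ((1 - W)⁻¹ * (1 - W)) * ((1 + W) * (1 + W)⁻¹) := by rw [hc]; simp only [Matrix.mul_assoc]
    _ = 1 := by rw [Matrix.nonsing_inv_mul _ hu2, Matrix.mul_nonsing_inv _ hu, one_mul]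

/-- near the base point `γ` and `1 + W` are invertible and `cay W` is orthogonal. -/
theorem near_inv {p r : ℕ} {κ : Type} [Fintype κ] [DecidableEq κ] :
    ∃ δ : ℝ, 0 < δ ∧ ∀ (γ : Matrix (Ix p κ) (Ix p κ) ℝ) (W : Matrix (Tx p r κ) (Tx p r κ) ℝ), Near δ γ W →
      IsUnit γ.det ∧ IsUnit (1 + W).det ∧ (cay W).transpose * cay W = 1 ∧ cay W * (cay W).transpose = 1 := by
  have hf1 : Continuous (fun γ : Ix p κ → Ix p κ → ℝ => Matrix.det (γ : Matrix (Ix p κ) (Ix p κ) ℝ)) :=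
    Continuous.matrix_det continuous_id
  have hf2 : Continuous (fun W : Tx p r κ → Tx p r κ → ℝ => Matrix.det ((1 : Matrix (Tx p r κ) (Tx p r κ) ℝ) +
      (Matrix.of W : Matrix (Tx p r κ) (Tx p r κ) ℝ))) :=
    Continuous.matrix_det (continuous_const.add continuous_id)
  obtain ⟨δ1, hδ1, h1⟩ := inv_near_of_cont _ hf1 (1 : Matrix (Ix p κ) (Ix p κ) ℝ) (1 / 2) (by norm_num)
  obtain ⟨δ2, hδ2, h2⟩ := inv_near_of_cont _ hf2 (0 : Matrix (Tx p r κ) (Tx p r κ) ℝ) (1 / 2) (by norm_num)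
  refine ⟨min δ1 δ2, lt_min hδ1 hδ2, fun γ W hN => ?_⟩
  obtain ⟨hN1, hN2, hN3⟩ := hN
  have e1 := h1 γ (fun i j => lt_of_lt_of_le (hN1 i j) (min_le_left _ _))
  have e2 := h2 W (fun i j => by
    have := lt_of_lt_of_le (hN2 i j) (min_le_right δ1 δ2)
    simpa using this)
  have hu1 : IsUnit γ.det := by
    rw [isUnit_iff_ne_zero]
    intro h0
    have e1' : |Matrix.det γ - Matrix.det (1 : Matrix (Ix p κ) (Ix p κ) ℝ)| < 1 / 2 := e1
    rw [h0, Matrix.det_one] at e1'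
    norm_num at e1'
  have hu2 : IsUnit (1 + W).det := by
    rw [isUnit_iff_ne_zero]
    intro h0
    have e2' : |Matrix.det (1 + W) - Matrix.det ((1 : Matrix (Tx p r κ) (Tx p r κ) ℝ) + 0)| < 1 / 2 := e2
    rw [h0, add_zero, Matrix.det_one] at e2'
    norm_num at e2'
  have ho := inv_cay_orth W hN3 hu2
  exact ⟨hu1, hu2, ho, mul_eq_one_comm.mp ho⟩

private lemma inv_card_pos (p : ℕ) (κ : Type) [Fintype κ] : (0 : ℝ) < (Fintype.card (Mu p κ) : ℝ) := by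
  have : Nonempty (Mu p κ) := ⟨(Sum.inl 0, Sum.inl 0)⟩
  exact_mod_cast Fintype.card_pos

theorem dl_pos (p : ℕ) (κ : Type) [Fintype κ] (ε : ℝ) (hε : 0 < ε) : 0 < dl p κ ε := by
  have h := inv_card_pos p κ
  unfold dl
  positivity

theorem dl_eq (p : ℕ) (κ : Type) [Fintype κ] (ε : ℝ) : 4 * (Fintype.card (Mu p κ) : ℝ) * dl p κ ε = ε / 2 := by
  have h := inv_card_pos p κ
  unfold dl
  generalize (Fintype.card (Mu p κ) : ℝ) = c at h ⊢
  field_simp
  ring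

theorem rho_one {p r : ℕ} {κ : Type} [Fintype κ] [DecidableEq κ] (G : Fin r → Matrix (Ix p κ) (Ix p κ) ℝ) (ε : ℝ)
    (a b : Mu p κ) : rho G ε 1 a b = 0 := by
  unfold rho
  simp only [Matrix.transpose_one, one_mul, mul_one, sub_self, mul_zero, Finset.sum_const_zero, add_zero]

/-- near the base point the numbers under the square roots are positive. -/
theorem near_sq {p r : ℕ} {κ : Type} [Fintype κ] [DecidableEq κ] (G : Fin r → Matrix (Ix p κ) (Ix p κ) ℝ) (ε : ℝ)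
    (hε : 0 < ε) : ∃ δ : ℝ, 0 < δ ∧ ∀ γ : Matrix (Ix p κ) (Ix p κ) ℝ,
      (∀ i j, |γ i j - (1 : Matrix (Ix p κ) (Ix p κ) ℝ) i j| < δ) → ∀ a b : Mu p κ, |rho G ε γ a b| < 4 * dl p κ ε := by
  have hf : Continuous (fun (γ : Ix p κ → Ix p κ → ℝ) (ab : Mu p κ × Mu p κ) =>
      rho G ε (γ : Matrix (Ix p κ) (Ix p κ) ℝ) ab.1 ab.2) := by
    refine continuous_pi fun ab => ?_
    simp only [rho, Matrix.mul_apply, Matrix.transpose_apply]
    fun_prop
  have hη : 0 < 4 * dl p κ ε := by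
    have := dl_pos p κ ε hε
    positivity
  obtain ⟨δ, hδ, h⟩ := inv_near_of_cont2 _ hf (1 : Matrix (Ix p κ) (Ix p κ) ℝ) (4 * dl p κ ε) hη
  refine ⟨δ, hδ, fun γ hγ a b => ?_⟩
  have h3 : |rho G ε γ a b - rho G ε 1 a b| < 4 * dl p κ ε := h γ hγ (a, b)
  rwa [rho_one, sub_zero] at h3

end Pool.Agent.Helper72.BP
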