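import Pool.Agent.Helper72.BP.O.Act
import Pool.Agent.Helper72.BP.O.Inv

/-!
PROJECT BP, module BP-O4: the tube identity.

Put m_a = mon y a (a ∈ Mu). core: if sq_j^2 = c_j for all j, that is sq (inl a)^2 = ε/2, sq (inr (inl ab))^2 = dl + ρ_ab/4, sq (inr (inr ab))^2 = dl - ρ_ab/4 (the numbers are >= 0, Real.sq_sqrt), then
 ∑_j (sq_j n_j)^2 = (ε/2) ∑ m_a^2 + ∑_ab [(dl + ρ_ab/4)(m_a + m_b)^2 + (dl - ρ_ab/4)(m_a - m_b)^2] = (ε/2) ∑ m_a^2 + ∑_ab (2 dl (m_a^2 + m_b^2) + ρ_ab m_a m_b)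
   = (ε/2 + 4 |Mu| dl) ∑ m_a^2 + ∑_ab ρ_ab m_a m_b = ε (nsq y)^2 + ∑_ab ρ_ab m_a m_b
 since ∑_a m_a^2 = (nsq y)^2 and dl_eq. With the definition of ρ: ∑_ab ρ_ab m_a m_b = ε ((∑_a (γᵀγ)_a m_a)^2 - (∑_a 1_a m_a)^2) + ∑_l ((∑_a (G_l)_a m_a)^2 - (∑_a (γᵀ G_l γ)_a m_a)^2)
   = ε ((nsq (act γ y))^2 - (nsq y)^2) + ∑_l ((qf (G l) y)^2 - (qf (G l) (act γ y))^2).
 In the Lean form every real number is inside algebraMap ℝ R (map_add, map_mul, map_sum, map_sub).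
tube_ident: nsq (tC y) = nsq (uC y) (nsq_act, near_inv) = [core] + ∑_l (I qf (G l) y)^2 + 0, and algebraMap ℂ R I ^ 2 = -1. Take δ = min of the δ's of near_inv and near_sq.
tube_identR: the same without the middle term, because qf (G l) y = 0.
-/

set_option autoImplicit false

namespace Pool.Agent.Helper72.BP

open MvPolynomial

theorem qf_act {ι : Type} [Fintype ι] {R : Type*} [CommRing R] [Algebra ℝ R] (A γ : Matrix ι ι ℝ)
    (y : ι → R) : qf A (act γ y) = qf (γ.transpose * A * γ) y := by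
  have h1 : qf A (act γ y) = ∑ i, ∑ j, ∑ x, ∑ z,
      algebraMap ℝ R (A i j) * (algebraMap ℝ R (γ i x) * y x) * (algebraMap ℝ R (γ j z) * y z) := by
    simp only [qf, act]
    refine Finset.sum_congr rfl fun i _ => Finset.sum_congr rfl fun j _ => ?_
    rw [mul_assoc, Finset.sum_mul_sum, Finset.mul_sum]
    refine Finset.sum_congr rfl fun x _ => ?_
    rw [Finset.mul_sum]
    exact Finset.sum_congr rfl fun z _ => by ring
  have h2 : qf (γ.transpose * A * γ) y = ∑ x, ∑ z, ∑ j, ∑ i,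
      algebraMap ℝ R (A i j) * (algebraMap ℝ R (γ i x) * y x) * (algebraMap ℝ R (γ j z) * y z) := by
    simp only [qf]
    refine Finset.sum_congr rfl fun x _ => Finset.sum_congr rfl fun z _ => ?_
    simp only [Matrix.mul_apply, Matrix.transpose_apply, map_sum, map_mul, Finset.sum_mul]
    exact Finset.sum_congr rfl fun j _ => Finset.sum_congr rfl fun i _ => by ring
  rw [h1, h2]
  calc ∑ i, ∑ j, ∑ x, ∑ z,
      algebraMap ℝ R (A i j) * (algebraMap ℝ R (γ i x) * y x) * (algebraMap ℝ R (γ j z) * y z)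
      = ∑ i, ∑ x, ∑ j, ∑ z,
      algebraMap ℝ R (A i j) * (algebraMap ℝ R (γ i x) * y x) * (algebraMap ℝ R (γ j z) * y z) :=
        Finset.sum_congr rfl fun i _ => Finset.sum_comm
    _ = ∑ x, ∑ i, ∑ j, ∑ z,
      algebraMap ℝ R (A i j) * (algebraMap ℝ R (γ i x) * y x) * (algebraMap ℝ R (γ j z) * y z) := Finset.sum_comm
    _ = ∑ x, ∑ i, ∑ z, ∑ j,
      algebraMap ℝ R (A i j) * (algebraMap ℝ R (γ i x) * y x) * (algebraMap ℝ R (γ j z) * y z) :=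
        Finset.sum_congr rfl fun x _ => Finset.sum_congr rfl fun i _ => Finset.sum_comm
    _ = ∑ x, ∑ z, ∑ i, ∑ j,
      algebraMap ℝ R (A i j) * (algebraMap ℝ R (γ i x) * y x) * (algebraMap ℝ R (γ j z) * y z) :=
        Finset.sum_congr rfl fun x _ => Finset.sum_comm
    _ = ∑ x, ∑ z, ∑ j, ∑ i,
      algebraMap ℝ R (A i j) * (algebraMap ℝ R (γ i x) * y x) * (algebraMap ℝ R (γ j z) * y z) :=
        Finset.sum_congr rfl fun x _ => Finset.sum_congr rfl fun z _ => Finset.sum_comm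

theorem sum_mon {ι : Type} [Fintype ι] {R : Type*} [CommRing R] [Algebra ℝ R] (A : Matrix ι ι ℝ)
    (y : ι → R) : qf A y = ∑ a : ι × ι, algebraMap ℝ R (A a.1 a.2) * mon y a := by
  rw [Fintype.sum_prod_type]
  simp only [qf, mon, mul_assoc]

private theorem tube_qf_one {ι : Type} [Fintype ι] [DecidableEq ι] {R : Type*} [CommRing R] [Algebra ℝ R] (y : ι → R) :
    qf (1 : Matrix ι ι ℝ) y = nsq y := by
  simp only [qf, nsq, Matrix.one_apply]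
  refine Finset.sum_congr rfl fun i _ => ?_
  rw [Finset.sum_eq_single i]
  · simp [pow_two]
  · intro b _ hb
    simp [Ne.symm hb]
  · intro h
    exact (h (Finset.mem_univ i)).elim

private theorem tube_sum_mon_sq {ι : Type} [Fintype ι] {R : Type*} [CommRing R] (y : ι → R) :
    ∑ a : ι × ι, mon y a ^ 2 = nsq y ^ 2 := by
  rw [Fintype.sum_prod_type]
  simp only [mon, nsq]
  rw [pow_two, Finset.sum_mul_sum]
  exact Finset.sum_congr rfl fun i _ => Finset.sum_congr rfl fun j _ => by ring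

private theorem tube_sq {R : Type*} [CommRing R] [Algebra ℝ R] (c : ℝ) (hc : 0 ≤ c) (n : R) :
    (algebraMap ℝ R (Real.sqrt c) * n) ^ 2 = algebraMap ℝ R c * n ^ 2 := by
  rw [mul_pow, ← map_pow, Real.sq_sqrt hc]

private theorem tube_prod {μ : Type} [Fintype μ] {R : Type*} [CommRing R] (f g m : μ → R) :
    ∑ ab : μ × μ, f ab.1 * g ab.2 * (m ab.1 * m ab.2) = (∑ a, f a * m a) * ∑ b, g b * m b := by
  rw [Fintype.sum_prod_type, Finset.sum_mul_sum]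
  exact Finset.sum_congr rfl fun i _ => Finset.sum_congr rfl fun j _ => by ring

private theorem tube_rho {ι : Type} [Fintype ι] [DecidableEq ι] {r : ℕ} {R : Type*} [CommRing R] [Algebra ℝ R]
    (G : Fin r → Matrix ι ι ℝ) (ε : ℝ) (γ : Matrix ι ι ℝ) (y : ι → R) :
    ∑ ab : (ι × ι) × (ι × ι), algebraMap ℝ R (rho G ε γ ab.1 ab.2) * (mon y ab.1 * mon y ab.2) =
      algebraMap ℝ R ε * (nsq (act γ y) ^ 2 - nsq y ^ 2) + ∑ l, (qf (G l) y ^ 2 - qf (G l) (act γ y) ^ 2) := by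
  have hP : qf (γ.transpose * γ) y = nsq (act γ y) := by
    rw [← tube_qf_one, qf_act, mul_one]
  have key : ∀ A : Matrix ι ι ℝ, ∑ ab : (ι × ι) × (ι × ι),
      algebraMap ℝ R (A ab.1.1 ab.1.2) * algebraMap ℝ R (A ab.2.1 ab.2.2) * (mon y ab.1 * mon y ab.2) = qf A y ^ 2 := by
    intro A
    have h := tube_prod (fun a : ι × ι => algebraMap ℝ R (A a.1 a.2)) (fun a : ι × ι => algebraMap ℝ R (A a.1 a.2)) (mon y)
    rw [← sum_mon, ← pow_two] at h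
    exact h
  have h1 : ∀ ab : (ι × ι) × (ι × ι), algebraMap ℝ R (rho G ε γ ab.1 ab.2) * (mon y ab.1 * mon y ab.2) =
      algebraMap ℝ R ε * (algebraMap ℝ R ((γ.transpose * γ) ab.1.1 ab.1.2) * algebraMap ℝ R ((γ.transpose * γ) ab.2.1 ab.2.2) * (mon y ab.1 * mon y ab.2)) -
      algebraMap ℝ R ε * (algebraMap ℝ R ((1 : Matrix ι ι ℝ) ab.1.1 ab.1.2) * algebraMap ℝ R ((1 : Matrix ι ι ℝ) ab.2.1 ab.2.2) * (mon y ab.1 * mon y ab.2)) +
      ∑ l, (algebraMap ℝ R (G l ab.1.1 ab.1.2) * algebraMap ℝ R (G l ab.2.1 ab.2.2) * (mon y ab.1 * mon y ab.2) -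
        algebraMap ℝ R ((γ.transpose * G l * γ) ab.1.1 ab.1.2) * algebraMap ℝ R ((γ.transpose * G l * γ) ab.2.1 ab.2.2) * (mon y ab.1 * mon y ab.2)) := by
    intro ab
    unfold rho
    simp only [map_add, map_mul, map_sub, map_sum, add_mul, Finset.sum_mul, mul_sub, sub_mul]
    ring
  rw [Finset.sum_congr rfl fun ab _ => h1 ab, Finset.sum_add_distrib, Finset.sum_sub_distrib, ← Finset.mul_sum, ← Finset.mul_sum, key, key,
    Finset.sum_comm, hP, tube_qf_one]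
  simp only [Finset.sum_sub_distrib, key, qf_act]
  ring

theorem core {p r : ℕ} {κ : Type} [Fintype κ] [DecidableEq κ] {R : Type*} [CommRing R] [Algebra ℝ R]
    (G : Fin r → Matrix (Ix p κ) (Ix p κ) ℝ) (ε : ℝ) (hε : 0 < ε) (γ : Matrix (Ix p κ) (Ix p κ) ℝ)
    (hρ : ∀ a b : Mu p κ, |rho G ε γ a b| < 4 * dl p κ ε) (y : Ix p κ → R) :
    ∑ j : Qx p κ, (algebraMap ℝ R (sq G ε γ j) * nj y j) ^ 2 =
      algebraMap ℝ R ε * nsq (act γ y) ^ 2 + ∑ l, qf (G l) y ^ 2 - ∑ l, qf (G l) (act γ y) ^ 2 := by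
  have hA : ∀ a : Mu p κ, (algebraMap ℝ R (sq G ε γ (Sum.inl a)) * nj y (Sum.inl a)) ^ 2 = algebraMap ℝ R (ε / 2) * mon y a ^ 2 := by
    intro a
    exact tube_sq _ (by positivity) _
  have hB : ∀ ab : Mu p κ × Mu p κ, (algebraMap ℝ R (sq G ε γ (Sum.inr (Sum.inl ab))) * nj y (Sum.inr (Sum.inl ab))) ^ 2 =
      algebraMap ℝ R (dl p κ ε + rho G ε γ ab.1 ab.2 / 4) * (mon y ab.1 + mon y ab.2) ^ 2 := by
    intro ab
    have h := abs_lt.1 (hρ ab.1 ab.2)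
    exact tube_sq _ (by linarith [h.1]) _
  have hC : ∀ ab : Mu p κ × Mu p κ, (algebraMap ℝ R (sq G ε γ (Sum.inr (Sum.inr ab))) * nj y (Sum.inr (Sum.inr ab))) ^ 2 =
      algebraMap ℝ R (dl p κ ε - rho G ε γ ab.1 ab.2 / 4) * (mon y ab.1 - mon y ab.2) ^ 2 := by
    intro ab
    have h := abs_lt.1 (hρ ab.1 ab.2)
    exact tube_sq _ (by linarith [h.2]) _
  have hBC : ∀ ab : Mu p κ × Mu p κ, algebraMap ℝ R (dl p κ ε + rho G ε γ ab.1 ab.2 / 4) * (mon y ab.1 + mon y ab.2) ^ 2 +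
      algebraMap ℝ R (dl p κ ε - rho G ε γ ab.1 ab.2 / 4) * (mon y ab.1 - mon y ab.2) ^ 2 =
      2 * algebraMap ℝ R (dl p κ ε) * (mon y ab.1 ^ 2 + mon y ab.2 ^ 2) +
        algebraMap ℝ R (rho G ε γ ab.1 ab.2) * (mon y ab.1 * mon y ab.2) := by
    intro ab
    have h4 : algebraMap ℝ R (rho G ε γ ab.1 ab.2) = 4 * algebraMap ℝ R (rho G ε γ ab.1 ab.2 / 4) := by
      rw [← map_ofNat (algebraMap ℝ R) 4, ← map_mul]
      congr 1
      ring
    rw [map_add, map_sub, h4]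
    ring
  have hS : ∑ ab : Mu p κ × Mu p κ, (mon y ab.1 ^ 2 + mon y ab.2 ^ 2) = 2 * (Fintype.card (Mu p κ) : R) * nsq y ^ 2 := by
    rw [Fintype.sum_prod_type]
    simp only [Finset.sum_add_distrib, Finset.sum_const, Finset.card_univ, nsmul_eq_mul, tube_sum_mon_sq, ← Finset.mul_sum]
    ring
  have hE : algebraMap ℝ R (ε / 2) + 4 * (Fintype.card (Mu p κ) : R) * algebraMap ℝ R (dl p κ ε) = algebraMap ℝ R ε := by
    have h := congrArg (algebraMap ℝ R) (dl_eq p κ ε)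
    simp only [map_mul, map_natCast, map_ofNat] at h
    rw [h, ← map_add]
    congr 1
    ring
  rw [Fintype.sum_sum_type, Fintype.sum_sum_type, Finset.sum_congr rfl fun a _ => hA a, Finset.sum_congr rfl fun ab _ => hB ab,
    Finset.sum_congr rfl fun ab _ => hC ab, ← Finset.sum_add_distrib, Finset.sum_congr rfl fun ab _ => hBC ab, Finset.sum_add_distrib,
    ← Finset.mul_sum, ← Finset.mul_sum, tube_sum_mon_sq, hS, tube_rho, Finset.sum_sub_distrib]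
  rw [← hE]
  ring

private theorem tube_uC {p r : ℕ} {κ : Type} [Fintype κ] [DecidableEq κ] {R : Type*} [CommRing R] [Algebra ℂ R] [Algebra ℝ R]
    (G : Fin r → Matrix (Ix p κ) (Ix p κ) ℝ) (ε : ℝ) (γ : Matrix (Ix p κ) (Ix p κ) ℝ) (y : Ix p κ → R) :
    nsq (uC G ε γ y) = ∑ j : Qx p κ, (algebraMap ℝ R (sq G ε γ j) * nj y j) ^ 2 +
      (∑ l, (algebraMap ℂ R Complex.I * qf (G l) y) ^ 2 + ∑ _ : Fin p, (0 : R) ^ 2) := by
  have h := Fintype.sum_sum_type (fun x : Qx p κ ⊕ (Fin r ⊕ Fin p) => uC G ε γ y x ^ 2)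
  have h2 := Fintype.sum_sum_type (fun x : Fin r ⊕ Fin p => uC G ε γ y (Sum.inr x) ^ 2)
  rw [h2] at h
  exact h

private theorem tube_uR {p r : ℕ} {κ : Type} [Fintype κ] [DecidableEq κ] {R : Type*} [CommRing R] [Algebra ℝ R]
    (G : Fin r → Matrix (Ix p κ) (Ix p κ) ℝ) (ε : ℝ) (γ : Matrix (Ix p κ) (Ix p κ) ℝ) (y : Ix p κ → R) :
    nsq (uR (r := r) G ε γ y) = ∑ j : Qx p κ, (algebraMap ℝ R (sq G ε γ j) * nj y j) ^ 2 + ∑ _ : Fin r ⊕ Fin p, (0 : R) ^ 2 :=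
  Fintype.sum_sum_type (fun x : Qx p κ ⊕ (Fin r ⊕ Fin p) => uR G ε γ y x ^ 2)

/-- TUBE IDENTITY: the section lies on the tube. -/
theorem tube_ident {p m r : ℕ} {κ : Type} [Fintype κ] [DecidableEq κ] (G : Fin r → Matrix (Ix p κ) (Ix p κ) ℝ)
    (q : (Fin m → ℂ) → Ix p κ → ℝ) (ε : ℝ) (hT : IsTube G q ε) :
    ∃ δ : ℝ, 0 < δ ∧ ∀ γ (W : Matrix (Tx p r κ) (Tx p r κ) ℝ), Near δ γ W →
      ∀ (R : Type) [CommRing R] [Algebra ℂ R] [Algebra ℝ R] [IsScalarTower ℝ ℂ R] (y : Ix p κ → R),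
        Ffun G ε (act γ y) (tC G ε γ W y) = 0 := by
  obtain ⟨δ1, hδ1, h1⟩ := near_inv (p := p) (r := r) (κ := κ)
  obtain ⟨δ2, hδ2, h2⟩ := near_sq G ε hT.pos
  refine ⟨min δ1 δ2, lt_min hδ1 hδ2, fun γ W hN R _ _ _ _ y => ?_⟩
  obtain ⟨_, _, ho, _⟩ := h1 γ W ⟨fun i j => lt_of_lt_of_le (hN.1 i j) (min_le_left _ _),
    fun i j => lt_of_lt_of_le (hN.2.1 i j) (min_le_left _ _), hN.2.2⟩
  have hρ := h2 γ (fun i j => lt_of_lt_of_le (hN.1 i j) (min_le_right _ _))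
  have hI : algebraMap ℂ R Complex.I ^ 2 = -1 := by
    rw [← map_pow, Complex.I_sq, map_neg, map_one]
  unfold Ffun tC
  rw [nsq_act _ ho, tube_uC, core G ε hT.pos γ hρ y]
  simp only [mul_pow, hI, neg_mul, one_mul, Finset.sum_neg_distrib, Finset.sum_const, zero_pow two_ne_zero, smul_zero]
  ring

/-- TUBE IDENTITY, real version. -/
theorem tube_identR {p m r : ℕ} {κ : Type} [Fintype κ] [DecidableEq κ] (G : Fin r → Matrix (Ix p κ) (Ix p κ) ℝ)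
    (q : (Fin m → ℂ) → Ix p κ → ℝ) (ε : ℝ) (hT : IsTube G q ε) :
    ∃ δ : ℝ, 0 < δ ∧ ∀ γ (W : Matrix (Tx p r κ) (Tx p r κ) ℝ), Near δ γ W →
      ∀ (R : Type) [CommRing R] [Algebra ℝ R] (y : Ix p κ → R), (∀ l, qf (G l) y = 0) →
        Ffun G ε (act γ y) (tR G ε γ W y) = 0 := by
  obtain ⟨δ1, hδ1, h1⟩ := near_inv (p := p) (r := r) (κ := κ)
  obtain ⟨δ2, hδ2, h2⟩ := near_sq G ε hT.pos
  refine ⟨min δ1 δ2, lt_min hδ1 hδ2, fun γ W hN R _ _ y hy => ?_⟩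
  obtain ⟨_, _, ho, _⟩ := h1 γ W ⟨fun i j => lt_of_lt_of_le (hN.1 i j) (min_le_left _ _),
    fun i j => lt_of_lt_of_le (hN.2.1 i j) (min_le_left _ _), hN.2.2⟩
  have hρ := h2 γ (fun i j => lt_of_lt_of_le (hN.1 i j) (min_le_right _ _))
  unfold Ffun tR
  rw [nsq_act _ ho, tube_uR, core G ε hT.pos γ hρ y]
  simp [hy]

end Pool.Agent.Helper72.BP
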