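import Pool.Agent.Helper72.BP.O.Act

/-!
PROJECT BP, module BP-O2: homogeneity of the sections.

nj (c • y) j = c^2 * nj y j (cases on j; ring), qf A (c • y) = c^2 * qf A y (Finset.mul_sum, ring), so uR (c • y) = c^2 • uR y, uC likewise; then act_smul.
tC_hom: each entry is a sum (act) of real constants times entries of uC, which are constants times products of two variables:
`IsHomogeneous.sum`, `IsHomogeneous.C_mul` / `isHomogeneous_C`, `isHomogeneous_X`, `IsHomogeneous.mul` (0 + 1 + 1 = 2); algebraMap ℝ (MvPolynomial _ ℂ) a = C (a : ℂ) and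
algebraMap ℂ _ I = C I (`MvPolynomial.algebraMap_apply`, `MvPolynomial.algebraMap_eq`). tR_hom: the same with the variables `inc X` (an entry is X or 0; 0 is homogeneous of every degree).
-/

set_option autoImplicit false

namespace Pool.Agent.Helper72.BP

open MvPolynomial

theorem qf_smul {ι : Type} [Fintype ι] {R : Type*} [CommRing R] [Algebra ℝ R] (A : Matrix ι ι ℝ) (c : R)
    (y : ι → R) : qf A (c • y) = c ^ 2 * qf A y := by
  simp only [qf, Pi.smul_apply, smul_eq_mul, Finset.mul_sum]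
  refine Finset.sum_congr rfl fun i _ => Finset.sum_congr rfl fun j _ => ?_
  ring

theorem nsq_smul {ι : Type} [Fintype ι] {R : Type*} [CommRing R] (c : R) (y : ι → R) :
    nsq (c • y) = c ^ 2 * nsq y := by
  simp only [nsq, Pi.smul_apply, smul_eq_mul, Finset.mul_sum]
  refine Finset.sum_congr rfl fun i _ => ?_
  ring

private theorem nj_smul_aux {p : ℕ} {κ : Type} {R : Type*} [CommRing R] (c : R) (y : Ix p κ → R)
    (j : Qx p κ) : nj (c • y) j = c ^ 2 * nj y j := by
  rcases j with a | ab | ab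
  · simp only [nj, mon, Pi.smul_apply, smul_eq_mul]
    ring
  · simp only [nj, mon, Pi.smul_apply, smul_eq_mul]
    ring
  · simp only [nj, mon, Pi.smul_apply, smul_eq_mul]
    ring

/-- homogeneity. -/
theorem tR_smul {p r : ℕ} {κ : Type} [Fintype κ] [DecidableEq κ] {R : Type*} [CommRing R] [Algebra ℝ R]
    (G : Fin r → Matrix (Ix p κ) (Ix p κ) ℝ) (ε : ℝ) (γ : Matrix (Ix p κ) (Ix p κ) ℝ)
    (W : Matrix (Tx p r κ) (Tx p r κ) ℝ) (y : Ix p κ → R) (c : R) :
    tR G ε γ W (c • y) = c ^ 2 • tR G ε γ W y := by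
  have h : (uR G ε γ (c • y) : Tx p r κ → R) = c ^ 2 • uR G ε γ y := by
    funext s
    rcases s with j | l
    · simp only [uR, nj_smul_aux, Pi.smul_apply, smul_eq_mul]
      ring
    · simp only [uR, Pi.smul_apply, smul_eq_mul, mul_zero]
  unfold tR
  rw [h, act_smul]

theorem tC_smul {p r : ℕ} {κ : Type} [Fintype κ] [DecidableEq κ] {R : Type*} [CommRing R] [Algebra ℂ R] [Algebra ℝ R]
    (G : Fin r → Matrix (Ix p κ) (Ix p κ) ℝ) (ε : ℝ) (γ : Matrix (Ix p κ) (Ix p κ) ℝ)
    (W : Matrix (Tx p r κ) (Tx p r κ) ℝ) (y : Ix p κ → R) (c : R) :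
    tC G ε γ W (c • y) = c ^ 2 • tC G ε γ W y := by
  have h : (uC G ε γ (c • y) : Tx p r κ → R) = c ^ 2 • uC G ε γ y := by
    funext s
    rcases s with j | l | l
    · simp only [uC, nj_smul_aux, Pi.smul_apply, smul_eq_mul]
      ring
    · simp only [uC, qf_smul, Pi.smul_apply, smul_eq_mul]
      ring
    · simp only [uC, Pi.smul_apply, smul_eq_mul, mul_zero]
  unfold tC
  rw [h, act_smul]

section aux

variable {σ : Type} {K : Type} [CommRing K] [Algebra ℝ K]

private theorem hom_alg {a : ℝ} {φ : MvPolynomial σ K} {n : ℕ} (h : φ.IsHomogeneous n) :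
    (algebraMap ℝ (MvPolynomial σ K) a * φ).IsHomogeneous n := by
  rw [MvPolynomial.algebraMap_apply]
  exact h.C_mul _

private theorem hom_mon {p : ℕ} {κ : Type} {y : Ix p κ → MvPolynomial σ K}
    (hy : ∀ i, (y i).IsHomogeneous 1) (a : Ix p κ × Ix p κ) : (mon y a).IsHomogeneous 2 :=
  (hy a.1).mul (hy a.2)

private theorem hom_nj {p : ℕ} {κ : Type} {y : Ix p κ → MvPolynomial σ K}
    (hy : ∀ i, (y i).IsHomogeneous 1) (j : Qx p κ) : (nj y j).IsHomogeneous 2 := by
  rcases j with a | ab | ab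
  · exact hom_mon hy a
  · exact (hom_mon hy ab.1).add (hom_mon hy ab.2)
  · exact (hom_mon hy ab.1).sub (hom_mon hy ab.2)

private theorem hom_qf {ι : Type} [Fintype ι] (A : Matrix ι ι ℝ) {y : ι → MvPolynomial σ K}
    (hy : ∀ i, (y i).IsHomogeneous 1) : (qf A y).IsHomogeneous 2 := by
  unfold qf
  refine MvPolynomial.IsHomogeneous.sum _ _ _ fun i _ => ?_
  refine MvPolynomial.IsHomogeneous.sum _ _ _ fun j _ => ?_
  exact (hom_alg (hy i)).mul (hy j)

private theorem hom_act {ι τ : Type} [Fintype τ] (A : Matrix ι τ ℝ) {u : τ → MvPolynomial σ K}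
    (hu : ∀ x, (u x).IsHomogeneous 2) (s : ι) : (act A u s).IsHomogeneous 2 := by
  unfold act
  exact MvPolynomial.IsHomogeneous.sum _ _ _ fun x _ => hom_alg (hu x)

end aux

theorem tC_hom {p r : ℕ} {κ : Type} [Fintype κ] [DecidableEq κ]
    (G : Fin r → Matrix (Ix p κ) (Ix p κ) ℝ) (ε : ℝ) (γ : Matrix (Ix p κ) (Ix p κ) ℝ)
    (W : Matrix (Tx p r κ) (Tx p r κ) ℝ) (s : Tx p r κ) :
    (tC G ε γ W (X : Ix p κ → MvPolynomial (Ix p κ) ℂ) s).IsHomogeneous 2 := by
  have hy : ∀ i, ((X : Ix p κ → MvPolynomial (Ix p κ) ℂ) i).IsHomogeneous 1 := fun i =>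
    isHomogeneous_X _ _
  unfold tC
  refine hom_act _ (fun x => ?_) s
  rcases x with j | l | l
  · exact hom_alg (hom_nj hy j)
  · change (algebraMap ℂ (MvPolynomial (Ix p κ) ℂ) Complex.I * qf (G l) X).IsHomogeneous 2
    rw [MvPolynomial.algebraMap_eq]
    exact (hom_qf (G l) hy).C_mul _
  · exact isHomogeneous_zero _ _ _

theorem tR_hom {p r : ℕ} {κ : Type} [Fintype κ] [DecidableEq κ]
    (G : Fin r → Matrix (Ix p κ) (Ix p κ) ℝ) (ε : ℝ) (γ : Matrix (Ix p κ) (Ix p κ) ℝ)
    (W : Matrix (Tx p r κ) (Tx p r κ) ℝ) (s : Tx p r κ) :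
    (tR G ε γ W (inc X : Ix p κ → MvPolynomial (Fin (p + 1)) ℝ) s).IsHomogeneous 2 := by
  have hy : ∀ i, ((inc X : Ix p κ → MvPolynomial (Fin (p + 1)) ℝ) i).IsHomogeneous 1 := by
    intro i
    rcases i with i | i
    · exact isHomogeneous_X _ _
    · exact isHomogeneous_zero _ _ _
  unfold tR
  refine hom_act _ (fun x => ?_) s
  rcases x with j | l
  · exact hom_alg (hom_nj hy j)
  · exact isHomogeneous_zero _ _ _

end Pool.Agent.Helper72.BP
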