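import Pool.Agent.Helper72.BP.O.Lin
import Pool.Agent.Helper72.BP.O.Hom

/-!
PROJECT BP, module BP-O7: the cone ideal is homogeneous and contains `F`.

wh_smul: for f weighted homogeneous of degree d: aeval (c • y, c^2 • t) f = c^d * aeval (y, t) f (f is a sum of monomials of weight d: expand with `MvPolynomial.aeval_def`/`eval₂_eq` over the support,
∏ (c^{wt x} w x)^{m x} = c^{∑ wt x m x} ∏ w x^{m x}, `Finsupp.weight` = d on the support).
coneIdeal_comp: f = ∑_n f_n (`sum_weightedHomogeneousComponent` or finite sum over n < N; the support of the family is finite), so for all real c: 0 = ∑_n c^n aeval x f_n: a polynomial in c with infinitely many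
zeros, so every coefficient aeval x f_n is 0 (Polynomial.eq_zero_of_infinite_isRoot); then aeval (c • , c^2 •) f_n = c^n * 0 = 0.
Fpol_mem: wh_smul with Fpol_hom, or directly aeval_Fpol and Ffun (c • y) (c^2 • t) = c^4 Ffun y t; Z ⊆ Vt.
-/

set_option autoImplicit false

namespace Pool.Agent.Helper72.BP

open MvPolynomial

private theorem comp_sum {ι τ : Type} (f : MvPolynomial (Var ι τ) ℝ) :
    ∃ S : Finset ℕ, (∀ d ∉ S, weightedHomogeneousComponent (wt : Var ι τ → ℕ) d f = 0) ∧
      f = ∑ d ∈ S, weightedHomogeneousComponent (wt : Var ι τ → ℕ) d f := by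
  have h := weightedHomogeneousComponent_finsupp (w := (wt : Var ι τ → ℕ)) f
  refine ⟨h.toFinset, fun d hd => ?_, ?_⟩
  · by_contra h1
    exact hd ((Set.Finite.mem_toFinset _).2 h1)
  · conv_lhs => rw [← sum_weightedHomogeneousComponent (wt : Var ι τ → ℕ) f]
    exact finsum_eq_sum _ h

theorem wh_smul {ι τ : Type} (f : MvPolynomial (Var ι τ) ℝ) (d : ℕ)
    (hf : IsWeightedHomogeneous (wt : Var ι τ → ℕ) f d) (y : ι → ℝ) (t : τ → ℝ) (c : ℝ) :
    aeval (Sum.elim (c • y) (c ^ 2 • t) : Var ι τ → ℝ) f = c ^ d * aeval (Sum.elim y t : Var ι τ → ℝ) f := by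
  have key : ∀ m : Var ι τ →₀ ℕ,
      ∏ x ∈ m.support, (Sum.elim (c • y) (c ^ 2 • t) x) ^ (m x) =
        c ^ (Finsupp.weight (wt : Var ι τ → ℕ) m) * ∏ x ∈ m.support, (Sum.elim y t x) ^ (m x) := by
    intro m
    rw [Finsupp.weight_apply, Finsupp.sum, ← Finset.prod_pow_eq_pow_sum,
      ← Finset.prod_mul_distrib]
    refine Finset.prod_congr rfl fun x _ => ?_
    cases x with
    | inl i =>
      simp only [Sum.elim_inl, Pi.smul_apply, smul_eq_mul, wt, mul_one, mul_pow]
    | inr s =>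
      simp only [Sum.elim_inr, Pi.smul_apply, smul_eq_mul, wt, mul_pow]
      rw [← pow_mul, mul_comm 2]
  rw [aeval_def, aeval_def, eval₂_eq, eval₂_eq, Finset.mul_sum]
  refine Finset.sum_congr rfl fun m hm => ?_
  rw [key m, hf (mem_support_iff.1 hm)]
  ring

/-- an ideal stable under taking components vanishes along the whole orbit. -/
theorem isZero_smul {ι τ : Type} (J : Ideal (MvPolynomial (Var ι τ) ℝ))
    (hJ : ∀ f ∈ J, ∀ d, weightedHomogeneousComponent (wt : Var ι τ → ℕ) d f ∈ J) (y : ι → ℝ) (t : τ → ℝ) (c : ℝ)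
    (h : IsZero J y t) : IsZero J (c • y) (c ^ 2 • t) := by
  intro f hf
  obtain ⟨S, -, h2⟩ := comp_sum f
  rw [h2, map_sum]
  refine Finset.sum_eq_zero fun d _ => ?_
  rw [wh_smul _ d (weightedHomogeneousComponent_isWeightedHomogeneous d f), h _ (hJ f hf d),
    mul_zero]

theorem coneIdeal_comp {ι τ : Type} [Fintype ι] [Fintype τ] (Z : Set ((ι → ℝ) × (τ → ℝ)))
    (f : MvPolynomial (Var ι τ) ℝ) (hf : f ∈ coneIdeal Z) (d : ℕ) :
    weightedHomogeneousComponent (wt : Var ι τ → ℕ) d f ∈ coneIdeal Z := by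
  intro x hx c
  rw [wh_smul _ d (weightedHomogeneousComponent_isWeightedHomogeneous d f)]
  obtain ⟨S, h1, h2⟩ := comp_sum f
  by_cases hd : d ∈ S
  · have h3 : (∑ n ∈ S, Polynomial.C (aeval (Sum.elim x.1 x.2)
        (weightedHomogeneousComponent (wt : Var ι τ → ℕ) n f)) * Polynomial.X ^ n :
        Polynomial ℝ) = 0 := by
      apply Polynomial.funext
      intro r
      rw [Polynomial.eval_finsetSum, Polynomial.eval_zero]
      have h4 := hf x hx r
      rw [h2, map_sum] at h4
      rw [← h4]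
      refine Finset.sum_congr rfl fun n _ => ?_
      rw [wh_smul _ n (weightedHomogeneousComponent_isWeightedHomogeneous n f),
        Polynomial.eval_mul, Polynomial.eval_C, Polynomial.eval_pow, Polynomial.eval_X, mul_comm]
    have h5 := congrArg (fun P => Polynomial.coeff P d) h3
    simp only [Polynomial.finsetSum_coeff, Polynomial.coeff_C_mul, Polynomial.coeff_X_pow,
      Polynomial.coeff_zero] at h5
    rw [Finset.sum_eq_single d (by
      intro n _ hn
      rw [if_neg (Ne.symm hn), mul_zero]) (fun h => absurd hd h), if_pos rfl, mul_one] at h5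
    rw [h5, mul_zero]
  · rw [h1 d hd, map_zero, mul_zero]

theorem Ffun_smul {ι τ : Type} [Fintype ι] [Fintype τ] {r : ℕ} {R : Type*} [CommRing R] [Algebra ℝ R]
    (G : Fin r → Matrix ι ι ℝ) (ε : ℝ) (y : ι → R) (t : τ → R) (c : R) :
    Ffun G ε (c • y) (c ^ 2 • t) = c ^ 4 * Ffun G ε y t := by
  unfold Ffun
  simp only [nsq_smul, qf_smul, mul_pow]
  rw [← Finset.mul_sum]
  ring

theorem Fpol_mem {ι τ : Type} [Fintype ι] [Fintype τ] {r : ℕ} (G : Fin r → Matrix ι ι ℝ) (ε : ℝ)
    (Z : Set ((ι → ℝ) × (τ → ℝ))) (hZ : Z ⊆ Vt G ε) : (Fpol G ε : MvPolynomial (Var ι τ) ℝ) ∈ coneIdeal Z := by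
  intro x hx c
  rw [aeval_Fpol, Ffun_smul, (hZ hx).2, mul_zero]

end Pool.Agent.Helper72.BP
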