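import Pool.Agent.Helper72.BP.O.Lin

/-!
PROJECT BP, module BP-O8: directional derivatives of polynomials, and regular points of the cone.

dual: both sides are algebra homs composed ... simplest by `MvPolynomial.induction_on`: constants, sums, products with a variable (pderiv is a derivation: `Derivation.leibniz`, pderiv_X).
hasFDeriv: induction on f as well (HasStrictFDerivAt.add, .mul with the coordinate function; `hasStrictFDerivAt_apply`).
regular_point: w := (act γ' x.1, x.2). aeval_lin and act_act, act_one: the value is Ffun x = 0. Gradient: if some x.2 s ≠ 0 use pderiv_lin_Fpol: 2 x.2 s ≠ 0. Otherwise x.2 = 0, so ∑ qf (G l) x.1 ^ 2 = ε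
(Ffun = 0, nsq x.1 = 1) and hT.reg gives v with ∑ x_i v_i = 0 and B := ∑_l qf (G l) x.1 * (∑_ij G_l i j x_i v_j) ≠ 0. Use `dual` for lin γ Fpol at w in the direction (act γ' v, 0): the point of the dual numbers is
(act γ' (x + ε v), 0); by aeval_lin the value is Ffun (x + ε v, 0) = ∑_l qf (G l) (x + εv)^2 - ε_tube nsq(x + εv)^2 whose ε-part is 4 B - 4 ε nsq(x) ∑ x_i v_i = 4 B (G_l symmetric) ≠ 0. So not all partial derivatives vanish.
(Alternatively: HasFDerivAt of the function and the chain rule.)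
-/

set_option autoImplicit false

namespace Pool.Agent.Helper72.BP

open MvPolynomial

theorem dual {σ : Type} [Fintype σ] (w v : σ → ℝ) (f : MvPolynomial σ ℝ) :
    aeval (fun x => (TrivSqZeroExt.inl (w x) + TrivSqZeroExt.inr (v x) : DualNumber ℝ)) f =
      TrivSqZeroExt.inl (aeval w f) + TrivSqZeroExt.inr (∑ x, aeval w (pderiv x f) * v x) := by
  classical
  induction f using MvPolynomial.induction_on with
  | C a =>
    rw [aeval_C, aeval_C]
    ext
    · simp [TrivSqZeroExt.algebraMap_eq_inl]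
    · simp [TrivSqZeroExt.algebraMap_eq_inl]
  | add f g hf hg =>
    rw [map_add, hf, hg]
    ext
    · simp
    · simp [add_mul, Finset.sum_add_distrib]
  | mul_X f i hf =>
    rw [map_mul, hf, aeval_X]
    have e : ∀ x, aeval w (pderiv x (f * X i)) * v x =
        w i * (aeval w (pderiv x f) * v x) + aeval w f * (if x = i then v x else 0) := by
      intro x
      rw [pderiv_mul, pderiv_X, map_add, map_mul, map_mul, aeval_X, Pi.single_apply]
      by_cases hx : i = x
      · subst hx
        simp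
        ring
      · rw [if_neg hx, if_neg (Ne.symm hx)]
        simp
        ring
    have e2 : ∑ x, aeval w (pderiv x (f * X i)) * v x =
        w i * (∑ x, aeval w (pderiv x f) * v x) + aeval w f * v i := by
      rw [Finset.sum_congr rfl (fun x _ => e x), Finset.sum_add_distrib, ← Finset.mul_sum, ← Finset.mul_sum]
      simp
    rw [e2]
    ext
    · simp
    · simp
      ring

theorem hasFDeriv {σ : Type} [Fintype σ] (f : MvPolynomial σ ℝ) (w : σ → ℝ) :
    HasStrictFDerivAt (fun w => eval w f)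
      (∑ x, eval w (pderiv x f) • (ContinuousLinearMap.proj x : (σ → ℝ) →L[ℝ] ℝ)) w := by
  classical
  induction f using MvPolynomial.induction_on with
  | C a =>
    have h := hasStrictFDerivAt_const (𝕜 := ℝ) a w
    have e : (∑ x, eval w (pderiv x (C a : MvPolynomial σ ℝ)) • (ContinuousLinearMap.proj x : (σ → ℝ) →L[ℝ] ℝ)) = 0 := by
      apply Finset.sum_eq_zero
      intro x _
      rw [pderiv_C, map_zero, zero_smul]
    rw [e]
    simpa using h
  | add f g hf hg =>
    have h := hf.add hg
    have e : (∑ x, eval w (pderiv x (f + g)) • (ContinuousLinearMap.proj x : (σ → ℝ) →L[ℝ] ℝ)) =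
        (∑ x, eval w (pderiv x f) • (ContinuousLinearMap.proj x : (σ → ℝ) →L[ℝ] ℝ)) +
        (∑ x, eval w (pderiv x g) • (ContinuousLinearMap.proj x : (σ → ℝ) →L[ℝ] ℝ)) := by
      rw [← Finset.sum_add_distrib]
      apply Finset.sum_congr rfl
      intro x _
      rw [map_add, map_add, add_smul]
    rw [e]
    have e2 : (fun w : σ → ℝ => eval w (f + g)) = (fun w => eval w f) + (fun w => eval w g) := by
      funext w
      simp
    rw [e2]
    exact h
  | mul_X f i hf =>
    have h := hf.mul (hasStrictFDerivAt_apply (𝕜 := ℝ) i w)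
    have e2 : (fun w : σ → ℝ => eval w (f * X i)) = (fun w => eval w f) * (fun w => w i) := by
      funext w
      simp
    rw [e2]
    refine h.congr_fderiv ?_
    ext u
    have e : ∀ x, eval w (pderiv x (f * X i)) * u x =
        w i * (eval w (pderiv x f) * u x) + eval w f * (if x = i then u x else 0) := by
      intro x
      rw [pderiv_mul, pderiv_X, map_add, map_mul, map_mul, eval_X, Pi.single_apply]
      by_cases hx : i = x
      · subst hx
        simp
        ring
      · rw [if_neg hx, if_neg (Ne.symm hx)]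
        simp
        ring
    have e3 : ∑ x, eval w (pderiv x (f * X i)) * u x =
        w i * (∑ x, eval w (pderiv x f) * u x) + eval w f * u i := by
      rw [Finset.sum_congr rfl (fun x _ => e x), Finset.sum_add_distrib, ← Finset.mul_sum, ← Finset.mul_sum]
      simp
    simp only [add_apply, smul_apply, sum_apply, ContinuousLinearMap.proj_apply, smul_eq_mul]
    rw [e3]
    ring

theorem dirAux_fst_qf {ι : Type} [Fintype ι] (A : Matrix ι ι ℝ) (x v : ι → ℝ) :
    (qf A (fun i => (TrivSqZeroExt.inl (x i) + TrivSqZeroExt.inr (v i) : DualNumber ℝ))).fst = qf A x := by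
  unfold qf
  rw [TrivSqZeroExt.fst_sum]
  apply Finset.sum_congr rfl
  intro i _
  rw [TrivSqZeroExt.fst_sum]
  apply Finset.sum_congr rfl
  intro j _
  simp [TrivSqZeroExt.algebraMap_eq_inl]

theorem dirAux_snd_qf {ι : Type} [Fintype ι] (A : Matrix ι ι ℝ) (hA : ∀ i j, A i j = A j i) (x v : ι → ℝ) :
    (qf A (fun i => (TrivSqZeroExt.inl (x i) + TrivSqZeroExt.inr (v i) : DualNumber ℝ))).snd =
      2 * ∑ i, ∑ j, A i j * x i * v j := by
  have e : (qf A (fun i => (TrivSqZeroExt.inl (x i) + TrivSqZeroExt.inr (v i) : DualNumber ℝ))).snd =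
      ∑ i, ∑ j, (A i j * x i * v j + A i j * v i * x j) := by
    unfold qf
    rw [TrivSqZeroExt.snd_sum]
    apply Finset.sum_congr rfl
    intro i _
    rw [TrivSqZeroExt.snd_sum]
    apply Finset.sum_congr rfl
    intro j _
    simp [TrivSqZeroExt.algebraMap_eq_inl]
  rw [e]
  have e2 : ∑ i, ∑ j, A i j * v i * x j = ∑ i, ∑ j, A i j * x i * v j := by
    rw [Finset.sum_comm]
    apply Finset.sum_congr rfl
    intro i _
    apply Finset.sum_congr rfl
    intro j _
    rw [hA j i]
    ring
  simp only [Finset.sum_add_distrib]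
  rw [e2]
  ring

theorem dirAux_fst_nsq {ι : Type} [Fintype ι] (x v : ι → ℝ) :
    (nsq (fun i => (TrivSqZeroExt.inl (x i) + TrivSqZeroExt.inr (v i) : DualNumber ℝ))).fst = nsq x := by
  unfold nsq
  rw [TrivSqZeroExt.fst_sum]
  apply Finset.sum_congr rfl
  intro i _
  simp

theorem dirAux_snd_nsq {ι : Type} [Fintype ι] (x v : ι → ℝ) :
    (nsq (fun i => (TrivSqZeroExt.inl (x i) + TrivSqZeroExt.inr (v i) : DualNumber ℝ))).snd =
      2 * ∑ i, x i * v i := by
  unfold nsq
  rw [TrivSqZeroExt.snd_sum, Finset.mul_sum]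
  apply Finset.sum_congr rfl
  intro i _
  rw [pow_two]
  simp
  ring

/-- points of `V~` are regular points of the cone `F(γ Y, t) = 0`. -/
theorem regular_point {p m r : ℕ} {κ : Type} [Fintype κ] [DecidableEq κ] (G : Fin r → Matrix (Ix p κ) (Ix p κ) ℝ)
    (q : (Fin m → ℂ) → Ix p κ → ℝ) (ε : ℝ) (hT : IsTube G q ε) (γ γ' : Matrix (Ix p κ) (Ix p κ) ℝ) (h : γ * γ' = 1)
    (x : (Ix p κ → ℝ) × (Tx p r κ → ℝ)) (hx : x ∈ Vt G ε) :
    aeval (Sum.elim (act γ' x.1) x.2) (lin γ (Fpol G ε) : MvPolynomial (Var (Ix p κ) (Tx p r κ)) ℝ) = 0 ∧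
      ∃ v, aeval (Sum.elim (act γ' x.1) x.2)
        (pderiv v (lin γ (Fpol G ε) : MvPolynomial (Var (Ix p κ) (Tx p r κ)) ℝ)) ≠ 0 := by
  obtain ⟨h1, h2⟩ := hx
  have e0 : act γ (act γ' x.1) = x.1 := by rw [act_act, h, act_one]
  refine ⟨by rw [aeval_lin, e0, aeval_Fpol]; exact h2, ?_⟩
  by_cases hs : ∃ s, x.2 s ≠ 0
  · obtain ⟨s, hs⟩ := hs
    refine ⟨Sum.inr s, ?_⟩
    rw [pderiv_lin_Fpol, map_mul, aeval_X, map_ofNat]
    simpa using hs
  · push Not at hs
    have hr : ∑ l, qf (G l) x.1 ^ 2 = ε := by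
      have h3 := h2
      unfold Ffun at h3
      rw [h1] at h3
      have h4 : nsq x.2 = 0 := by
        unfold nsq
        apply Finset.sum_eq_zero
        intro s _
        rw [hs s]
        ring
      rw [h4] at h3
      simp at h3
      linarith
    obtain ⟨v, hv1, hv2⟩ := hT.reg x.1 h1 hr
    by_contra hcon
    push Not at hcon
    have hd := dual (Sum.elim (act γ' x.1) x.2 : Var (Ix p κ) (Tx p r κ) → ℝ)
      (Sum.elim (act γ' v) (fun _ => 0) : Var (Ix p κ) (Tx p r κ) → ℝ) (lin γ (Fpol G ε))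
    have hz : ∑ z, aeval (Sum.elim (act γ' x.1) x.2 : Var (Ix p κ) (Tx p r κ) → ℝ)
        (pderiv z (lin γ (Fpol G ε) : MvPolynomial (Var (Ix p κ) (Tx p r κ)) ℝ)) *
        (Sum.elim (act γ' v) (fun _ => 0) : Var (Ix p κ) (Tx p r κ) → ℝ) z = 0 := by
      apply Finset.sum_eq_zero
      intro z _
      rw [hcon z, zero_mul]
    rw [hz] at hd
    have e1 : (fun z => (TrivSqZeroExt.inl ((Sum.elim (act γ' x.1) x.2 : Var (Ix p κ) (Tx p r κ) → ℝ) z) +
        TrivSqZeroExt.inr ((Sum.elim (act γ' v) (fun _ => 0) : Var (Ix p κ) (Tx p r κ) → ℝ) z) : DualNumber ℝ)) =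
        Sum.elim (act γ' (fun i => (TrivSqZeroExt.inl (x.1 i) + TrivSqZeroExt.inr (v i) : DualNumber ℝ)))
          (fun _ => 0) := by
      funext z
      cases z with
      | inl i =>
        simp only [Sum.elim_inl, act]
        ext
        · simp [TrivSqZeroExt.algebraMap_eq_inl, TrivSqZeroExt.fst_sum]
        · simp [TrivSqZeroExt.algebraMap_eq_inl, TrivSqZeroExt.snd_sum]
      | inr s =>
        simp [hs s]
    rw [e1, aeval_lin, act_act, h, act_one, aeval_Fpol] at hd
    have hd2 := congrArg TrivSqZeroExt.snd hd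
    have e3 : (Ffun G ε (fun i => (TrivSqZeroExt.inl (x.1 i) + TrivSqZeroExt.inr (v i) : DualNumber ℝ))
        (fun _ : Tx p r κ => (0 : DualNumber ℝ))).snd =
        4 * ∑ l, qf (G l) x.1 * ∑ i, ∑ j, G l i j * x.1 i * v j := by
      unfold Ffun
      rw [TrivSqZeroExt.snd_sub, TrivSqZeroExt.snd_add, TrivSqZeroExt.snd_sum]
      have f1 : (nsq (fun _ : Tx p r κ => (0 : DualNumber ℝ))).snd = 0 := by
        unfold nsq
        simp
      have f2 : (algebraMap ℝ (DualNumber ℝ) ε *
          nsq (fun i => (TrivSqZeroExt.inl (x.1 i) + TrivSqZeroExt.inr (v i) : DualNumber ℝ)) ^ 2).snd = 0 := by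
        rw [pow_two]
        simp only [TrivSqZeroExt.algebraMap_eq_inl, TrivSqZeroExt.snd_mul, TrivSqZeroExt.fst_mul,
          TrivSqZeroExt.fst_inl, TrivSqZeroExt.snd_inl, dirAux_snd_nsq, hv1, smul_eq_mul,
          MulOpposite.smul_eq_mul_unop, MulOpposite.unop_op]
        ring
      rw [f1, f2, zero_add, sub_zero, Finset.mul_sum]
      apply Finset.sum_congr rfl
      intro l _
      rw [pow_two]
      simp only [TrivSqZeroExt.snd_mul, dirAux_snd_qf (G l) (hT.symm l), dirAux_fst_qf, smul_eq_mul,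
        MulOpposite.smul_eq_mul_unop, MulOpposite.unop_op]
      ring
    rw [e3] at hd2
    apply hv2
    rw [TrivSqZeroExt.snd_add, TrivSqZeroExt.snd_inl, TrivSqZeroExt.snd_inr, add_zero] at hd2
    linarith

end Pool.Agent.Helper72.BP
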