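import Pool.Agent.Helper72.BP.O.Act
import Pool.Agent.Helper72.BP.Defs2

/-!
PROJECT BP, module BP-O6: the linear change of the variables `Y`.

aeval_lin: both sides are algebra homs in f (compose aeval with lin; `MvPolynomial.algHom_ext` or induction on f), on X (inl i) both are ∑ j, γ i j * y j = act γ y i, on X (inr s) both are t s.
lin_lin: by aeval_lin with R = MvPolynomial: lin γ (lin γ' f) = aeval (Sum.elim (act γ X_Y) X_t) (lin γ' f) = aeval (Sum.elim (act γ' (act γ X_Y)) X_t) f = aeval X f = f (act_act, act_one).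
lin_comp: lin γ maps a weighted homogeneous polynomial of degree n to one of degree n (write it as a sum of monomials; images of the variables are weighted homogeneous of degree 1 resp. 2;
`IsWeightedHomogeneous.sum`, `.mul`, `.pow` / `IsWeightedHomogeneous.prod`); f = ∑_n component n f, apply lin γ and take the component d.
Fpol_hom: each term is a product of variables of total weight 4 (`isWeightedHomogeneous_X`, `.mul`, `.sum`, constants have weight 0).
aeval_Fpol: unfold, simp [map_add, map_sum, map_pow, aeval_X], naturality of qf (qf_map with φ = (aeval ..).toRingHom).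
pderiv_lin_Fpol: lin γ (Fpol) = nsq (X_t) + (terms in the variables inl only); pderiv (inr s) kills the latter (each is a polynomial in X (inl i): pderiv_X, Pi.single_apply), and pderiv (inr s) (∑ X_t^2) = 2 X_s.
-/

set_option autoImplicit false

namespace Pool.Agent.Helper72.BP

open MvPolynomial

/-- `f ↦ f(γ Y, t)`. -/
noncomputable def lin {ι τ : Type} [Fintype ι] (γ : Matrix ι ι ℝ) :
    MvPolynomial (Var ι τ) ℝ →ₐ[ℝ] MvPolynomial (Var ι τ) ℝ :=
  aeval (Sum.elim (act γ (fun i => X (Sum.inl i))) (fun s => X (Sum.inr s)))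

theorem aeval_lin {ι τ : Type} [Fintype ι] {R : Type*} [CommRing R] [Algebra ℝ R] (γ : Matrix ι ι ℝ) (y : ι → R)
    (t : τ → R) (f : MvPolynomial (Var ι τ) ℝ) :
    aeval (Sum.elim y t) (lin γ f) = aeval (Sum.elim (act γ y) t) f := by
  have h : (aeval (Sum.elim y t)).comp (lin γ) = aeval (Sum.elim (act γ y) t) := by
    apply MvPolynomial.algHom_ext
    rintro (i | s)
    · simp [lin, act, map_sum]
    · simp [lin]
  exact DFunLike.congr_fun h f

theorem lin_lin {ι τ : Type} [Fintype ι] [DecidableEq ι] (γ γ' : Matrix ι ι ℝ) (h : γ' * γ = 1)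
    (f : MvPolynomial (Var ι τ) ℝ) : lin γ (lin γ' f) = f := by
  have h1 := aeval_lin (ι := ι) (τ := τ) (R := MvPolynomial (Var ι τ) ℝ) γ'
    (act γ (fun i => X (Sum.inl i))) (fun s => X (Sum.inr s)) f
  have h2 : act γ' (act γ (fun i => (X (Sum.inl i) : MvPolynomial (Var ι τ) ℝ))) = fun i => X (Sum.inl i) := by
    rw [act_act, h, act_one]
  rw [h2] at h1
  have h3 : (Sum.elim (fun i => X (Sum.inl i)) (fun s => X (Sum.inr s)) :
      Var ι τ → MvPolynomial (Var ι τ) ℝ) = X := by
    funext x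
    rcases x with x | x <;> rfl
  rw [h3] at h1
  refine Eq.trans h1 ?_
  exact DFunLike.congr_fun (aeval_X_left (R := ℝ) (σ := Var ι τ)) f

private theorem act_hom {ι τ : Type} [Fintype ι] (γ : Matrix ι ι ℝ) (i : ι) :
    IsWeightedHomogeneous (wt : Var ι τ → ℕ)
      (act γ (fun i => (X (Sum.inl i) : MvPolynomial (Var ι τ) ℝ)) i) 1 := by
  unfold act
  refine IsWeightedHomogeneous.sum _ _ _ fun j _ => ?_
  exact (isWeightedHomogeneous_X (R := ℝ) (wt : Var ι τ → ℕ) (Sum.inl j)).C_mul (γ i j)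

private theorem lin_hom_X {ι τ : Type} [Fintype ι] (γ : Matrix ι ι ℝ) (x : Var ι τ) :
    IsWeightedHomogeneous (wt : Var ι τ → ℕ) (lin γ (X x : MvPolynomial (Var ι τ) ℝ)) (wt x) := by
  rcases x with i | s
  · have h := act_hom (τ := τ) γ i
    simpa [lin, wt] using h
  · have h := isWeightedHomogeneous_X (R := ℝ) (wt : Var ι τ → ℕ) (Sum.inr s)
    simpa [lin, wt] using h

private theorem lin_hom_monomial {ι τ : Type} [Fintype ι] (γ : Matrix ι ι ℝ) (u : Var ι τ →₀ ℕ) (a : ℝ) :
    IsWeightedHomogeneous (wt : Var ι τ → ℕ) (lin γ (monomial u a : MvPolynomial (Var ι τ) ℝ))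
      (Finsupp.weight wt u) := by
  have h1 : lin γ (monomial u a : MvPolynomial (Var ι τ) ℝ) =
      C a * ∏ x ∈ u.support, lin γ (X x) ^ u x := by
    rw [monomial_eq, map_mul, Finsupp.prod, map_prod]
    simp only [map_pow]
    congr 1
    exact (lin γ).commutes a
  rw [h1]
  refine IsWeightedHomogeneous.C_mul ?_ a
  rw [Finsupp.weight_apply, Finsupp.sum]
  exact IsWeightedHomogeneous.prod _ _ _ fun x _ => (lin_hom_X γ x).pow (u x)

theorem lin_comp {ι τ : Type} [Fintype ι] (γ : Matrix ι ι ℝ) (f : MvPolynomial (Var ι τ) ℝ) (d : ℕ) :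
    weightedHomogeneousComponent (wt : Var ι τ → ℕ) d (lin γ f) =
      lin γ (weightedHomogeneousComponent (wt : Var ι τ → ℕ) d f) := by
  induction f using MvPolynomial.induction_on' with
  | monomial u a =>
    have hu : IsWeightedHomogeneous (wt : Var ι τ → ℕ) (monomial u a : MvPolynomial (Var ι τ) ℝ)
        (Finsupp.weight wt u) := isWeightedHomogeneous_monomial _ _ _ rfl
    have hv := lin_hom_monomial γ u a
    by_cases hd : d = Finsupp.weight wt u
    · subst hd
      rw [hu.weightedHomogeneousComponent_same, hv.weightedHomogeneousComponent_same]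
    · rw [hu.weightedHomogeneousComponent_ne d hd, hv.weightedHomogeneousComponent_ne d hd, map_zero]
  | add p q hp hq => rw [map_add, map_add, hp, hq, map_add, map_add]

private theorem nsq_hom {ι κ τ : Type} [Fintype κ] (f : κ → MvPolynomial (Var ι τ) ℝ) (n : ℕ)
    (hf : ∀ i, IsWeightedHomogeneous (wt : Var ι τ → ℕ) (f i) n) :
    IsWeightedHomogeneous (wt : Var ι τ → ℕ) (nsq f) (2 * n) := by
  unfold nsq
  refine IsWeightedHomogeneous.sum _ _ _ fun i _ => ?_
  exact (hf i).pow 2

private theorem qf_hom {ι τ : Type} [Fintype ι] (A : Matrix ι ι ℝ) :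
    IsWeightedHomogeneous (wt : Var ι τ → ℕ)
      (qf A (fun i => (X (Sum.inl i) : MvPolynomial (Var ι τ) ℝ))) 2 := by
  unfold qf
  refine IsWeightedHomogeneous.sum _ _ _ fun i _ => IsWeightedHomogeneous.sum _ _ _ fun j _ => ?_
  exact ((isWeightedHomogeneous_X (R := ℝ) (wt : Var ι τ → ℕ) (Sum.inl i)).C_mul (A i j)).mul
    (isWeightedHomogeneous_X (R := ℝ) (wt : Var ι τ → ℕ) (Sum.inl j))

theorem Fpol_hom {ι τ : Type} [Fintype ι] [Fintype τ] {r : ℕ} (G : Fin r → Matrix ι ι ℝ) (ε : ℝ) :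
    IsWeightedHomogeneous (wt : Var ι τ → ℕ) (Fpol G ε : MvPolynomial (Var ι τ) ℝ) 4 := by
  unfold Fpol Ffun
  refine IsWeightedHomogeneous.sub (IsWeightedHomogeneous.add ?_ ?_) ?_
  · exact nsq_hom _ 2 fun s => isWeightedHomogeneous_X (R := ℝ) (wt : Var ι τ → ℕ) (Sum.inr s)
  · refine IsWeightedHomogeneous.sum _ _ _ fun l _ => ?_
    have h := (qf_hom (τ := τ) (G l)).pow 2
    simpa using h
  · have h1 : IsWeightedHomogeneous (wt : Var ι τ → ℕ)
        (nsq (fun i => (X (Sum.inl i) : MvPolynomial (Var ι τ) ℝ))) 2 :=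
      nsq_hom _ 1 fun i => isWeightedHomogeneous_X (R := ℝ) (wt : Var ι τ → ℕ) (Sum.inl i)
    have h2 := (h1.pow 2).C_mul ε
    simpa using h2

theorem aeval_Fpol {ι τ : Type} [Fintype ι] [Fintype τ] {r : ℕ} {R : Type*} [CommRing R] [Algebra ℝ R]
    (G : Fin r → Matrix ι ι ℝ) (ε : ℝ) (y : ι → R) (t : τ → R) :
    aeval (Sum.elim y t) (Fpol G ε : MvPolynomial (Var ι τ) ℝ) = Ffun G ε y t := by
  unfold Fpol Ffun
  have hq : ∀ A : Matrix ι ι ℝ, aeval (Sum.elim y t) (qf A (fun i => (X (Sum.inl i) :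
      MvPolynomial (Var ι τ) ℝ))) = qf A y := by
    intro A
    simp [qf, map_sum]
  simp [nsq, map_sum, hq]

theorem pderiv_lin_Fpol {ι τ : Type} [Fintype ι] [Fintype τ] {r : ℕ} (G : Fin r → Matrix ι ι ℝ) (ε : ℝ)
    (γ : Matrix ι ι ℝ) (s : τ) :
    pderiv (Sum.inr s) (lin γ (Fpol G ε) : MvPolynomial (Var ι τ) ℝ) = 2 * X (Sum.inr s) := by
  have h0 : lin γ (Fpol G ε) = (Ffun G ε (act γ (fun i => X (Sum.inl i))) (fun s => X (Sum.inr s)) :
      MvPolynomial (Var ι τ) ℝ) := aeval_Fpol G ε _ _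
  have h1 : ∀ i, pderiv (Sum.inr s) (act γ (fun i => (X (Sum.inl i) : MvPolynomial (Var ι τ) ℝ)) i) = 0 := by
    intro i
    simp only [act, map_sum, Derivation.leibniz, MvPolynomial.algebraMap_eq, pderiv_C, smul_zero, add_zero]
    refine Finset.sum_eq_zero fun j _ => ?_
    rw [pderiv_X_of_ne (by simp)]
    simp
  have h2 : ∀ A : Matrix ι ι ℝ, pderiv (Sum.inr s)
      (qf A (act γ (fun i => (X (Sum.inl i) : MvPolynomial (Var ι τ) ℝ)))) = 0 := by
    intro A
    simp only [qf, map_sum, Derivation.leibniz, MvPolynomial.algebraMap_eq, pderiv_C, h1, smul_zero, add_zero,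
      Finset.sum_const_zero]
  have h3 : pderiv (Sum.inr s) (nsq (act γ (fun i => (X (Sum.inl i) : MvPolynomial (Var ι τ) ℝ)))) = 0 := by
    simp only [nsq, map_sum, Derivation.leibniz_pow, h1, smul_zero, Finset.sum_const_zero]
  rw [h0, Ffun, map_sub, map_add, map_sum]
  have h4 : pderiv (Sum.inr s) (nsq (fun s => (X (Sum.inr s) : MvPolynomial (Var ι τ) ℝ))) =
      2 * X (Sum.inr s) := by
    classical
    simp only [nsq, map_sum, Derivation.leibniz_pow]
    rw [Finset.sum_eq_single s]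
    · rw [pderiv_X_self]
      simp
    · intro b _ hb
      rw [pderiv_X_of_ne (by simpa using hb)]
      simp
    · intro h
      exact (h (Finset.mem_univ s)).elim
  rw [h4]
  simp only [Derivation.leibniz_pow, h2, smul_zero, Finset.sum_const_zero, add_zero,
    Derivation.leibniz, h3, MvPolynomial.algebraMap_eq, pderiv_C, sub_zero]

end Pool.Agent.Helper72.BP
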