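import Pool.Agent.Helper72.BP.O.Act
import Pool.Agent.Helper72.BP.Defs2

/-!
PROJECT BP, module BP-O5: the section is nonzero.

If all tC s = 0 then act (cay W)ᵀ (act (cay W) (uC y)) = uC y = 0 (act_act, act_one, hW). The entry inl (inl (i, i)) is √(ε/2) * (y i * y i), and √(ε/2) ≠ 0 (hT.pos), so y i = 0 for all i.
-/

set_option autoImplicit false

namespace Pool.Agent.Helper72.BP

open MvPolynomial

/-- the section is nonzero. -/
theorem tC_ne {p m r : ℕ} {κ : Type} [Fintype κ] [DecidableEq κ] (G : Fin r → Matrix (Ix p κ) (Ix p κ) ℝ)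
    (q : (Fin m → ℂ) → Ix p κ → ℝ) (ε : ℝ) (hT : IsTube G q ε)
    (γ : Matrix (Ix p κ) (Ix p κ) ℝ) (W : Matrix (Tx p r κ) (Tx p r κ) ℝ) (hW : (cay W).transpose * cay W = 1)
    (y : Ix p κ → ℂ) (hy : y ≠ 0) : ∃ s, tC G ε γ W y s ≠ 0 := by
  by_contra hcon
  push Not at hcon
  apply hy
  have h0 : tC G ε γ W y = 0 := funext hcon
  have h1 : uC (r := r) G ε γ y = 0 := by
    rw [← act_one (uC (r := r) G ε γ y), ← hW, ← act_act]
    have h2 : act (cay W) (uC G ε γ y) = 0 := h0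
    rw [h2]
    funext s
    simp [act]
  funext i
  have h3 : (uC (r := r) G ε γ y) (Sum.inl (Sum.inl (i, i))) = 0 := by
    rw [h1]
    rfl
  have h4 : algebraMap ℝ ℂ (Real.sqrt (ε / 2)) * (y i * y i) = 0 := h3
  have h5 : (algebraMap ℝ ℂ (Real.sqrt (ε / 2))) ≠ 0 := by
    have h6 : Real.sqrt (ε / 2) ≠ 0 := (Real.sqrt_pos.mpr (half_pos hT.pos)).ne'
    simpa using h6
  rcases mul_eq_zero.mp h4 with h | h
  · exact absurd h h5
  · rcases mul_eq_zero.mp h with h | h <;> exact h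

end Pool.Agent.Helper72.BP
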