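import Pool.Agent.Helper72.BP.Defs

/-!
PROJECT BP, module BP-O1: elementary rules for `act`, naturality of `qf`, `act`, `tC`, `tR`.

`act A u s = ∑ x, algebraMap (A s x) * u x`. act_act: expand, `Matrix.mul_apply`, `map_sum`, `map_mul`, `Finset.sum_comm`.
act_one: `Matrix.one_apply`, `Finset.sum_ite_eq`. nsq_act: nsq (act A u) = ∑_(x,y) (∑_s A s x A s y) u x u y = ∑ (Aᵀ A) x y u x u y.
tC_map: unfold tC, act_map, then cases on the index in uC (`sq` is a real number; nj, qf are natural: qf_map).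
tC_eq_tR: uC = uR entry by entry because qf (G l) y = 0. qf_inc: only the terms i, j ∈ Fin (p+1) survive (`Fintype.sum_sum_type`), and there G vanishes.
-/

set_option autoImplicit false

namespace Pool.Agent.Helper72.BP

open MvPolynomial

theorem qf_map {ι : Type} [Fintype ι] {R S : Type*} [CommRing R] [Algebra ℝ R] [CommRing S] [Algebra ℝ S]
    (φ : R →+* S) (hφ : ∀ a : ℝ, φ (algebraMap ℝ R a) = algebraMap ℝ S a) (A : Matrix ι ι ℝ) (y : ι → R) :
    φ (qf A y) = qf A (fun i => φ (y i)) := by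
  simp [qf, map_sum, hφ]

theorem act_map {ι τ : Type} [Fintype τ] {R S : Type*} [CommRing R] [Algebra ℝ R] [CommRing S] [Algebra ℝ S]
    (φ : R →+* S) (hφ : ∀ a : ℝ, φ (algebraMap ℝ R a) = algebraMap ℝ S a) (A : Matrix ι τ ℝ) (u : τ → R) (s : ι) :
    φ (act A u s) = act A (fun x => φ (u x)) s := by
  simp [act, map_sum, hφ]

theorem act_act {ι τ υ : Type} [Fintype τ] [Fintype υ] {R : Type*} [CommRing R] [Algebra ℝ R] (A : Matrix ι τ ℝ)
    (B : Matrix τ υ ℝ) (u : υ → R) : act A (act B u) = act (A * B) u := by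
  funext s
  simp only [act, Matrix.mul_apply, map_sum, map_mul, Finset.mul_sum, Finset.sum_mul]
  rw [Finset.sum_comm]
  exact Finset.sum_congr rfl fun i _ => Finset.sum_congr rfl fun j _ => by ring

theorem act_one {τ : Type} [Fintype τ] [DecidableEq τ] {R : Type*} [CommRing R] [Algebra ℝ R] (u : τ → R) :
    act (1 : Matrix τ τ ℝ) u = u := by
  funext s
  simp only [act, Matrix.one_apply]
  rw [Finset.sum_eq_single s]
  · simp
  · intro b _ hb
    simp [Ne.symm hb]
  · intro h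
    exact (h (Finset.mem_univ s)).elim

theorem act_add {ι τ : Type} [Fintype τ] {R : Type*} [CommRing R] [Algebra ℝ R] (A : Matrix ι τ ℝ)
    (u v : τ → R) : act A (u + v) = act A u + act A v := by
  funext s
  simp only [act, Pi.add_apply, mul_add, Finset.sum_add_distrib]

theorem act_smul {ι τ : Type} [Fintype τ] {R : Type*} [CommRing R] [Algebra ℝ R] (A : Matrix ι τ ℝ)
    (c : R) (u : τ → R) : act A (c • u) = c • act A u := by
  funext s
  simp only [act, Pi.smul_apply, smul_eq_mul, Finset.mul_sum]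
  exact Finset.sum_congr rfl fun i _ => by ring

/-- an orthogonal matrix preserves `nsq`. -/
theorem nsq_act {τ : Type} [Fintype τ] [DecidableEq τ] {R : Type*} [CommRing R] [Algebra ℝ R] (A : Matrix τ τ ℝ)
    (hA : A.transpose * A = 1) (u : τ → R) : nsq (act A u) = nsq u := by
  have h0 : nsq (act A u) = ∑ s, ∑ x, ∑ y, (algebraMap ℝ R (A s x) * u x) * (algebraMap ℝ R (A s y) * u y) := by
    simp only [nsq, act]
    refine Finset.sum_congr rfl fun s _ => ?_
    rw [pow_two, Finset.sum_mul_sum]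
  have h1 : nsq (act A u) = ∑ x, ∑ y, algebraMap ℝ R ((A.transpose * A) x y) * u x * u y := by
    rw [h0, Finset.sum_comm]
    refine Finset.sum_congr rfl fun x _ => ?_
    rw [Finset.sum_comm]
    refine Finset.sum_congr rfl fun y _ => ?_
    simp only [Matrix.mul_apply, Matrix.transpose_apply, map_sum, map_mul, Finset.sum_mul]
    exact Finset.sum_congr rfl fun i _ => by ring
  rw [h1, hA]
  simp only [nsq, Matrix.one_apply]
  refine Finset.sum_congr rfl fun x _ => ?_
  rw [Finset.sum_eq_single x]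
  · simp [_root_.sq]
  · intro b _ hb
    simp [Ne.symm hb]
  · intro h
    exact (h (Finset.mem_univ x)).elim

/-- `tC` is natural. -/
theorem tC_map {p r : ℕ} {κ : Type} [Fintype κ] [DecidableEq κ] {R S : Type*} [CommRing R] [Algebra ℂ R] [Algebra ℝ R]
    [CommRing S] [Algebra ℂ S] [Algebra ℝ S] (φ : R →+* S) (hφ : ∀ a : ℝ, φ (algebraMap ℝ R a) = algebraMap ℝ S a)
    (hφ' : φ (algebraMap ℂ R Complex.I) = algebraMap ℂ S Complex.I)
    (G : Fin r → Matrix (Ix p κ) (Ix p κ) ℝ) (ε : ℝ) (γ : Matrix (Ix p κ) (Ix p κ) ℝ)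
    (W : Matrix (Tx p r κ) (Tx p r κ) ℝ) (y : Ix p κ → R) (s : Tx p r κ) :
    φ (tC G ε γ W y s) = tC G ε γ W (fun i => φ (y i)) s := by
  have hmon : ∀ a : Mu p κ, φ (mon y a) = mon (fun i => φ (y i)) a := fun a => by
    simp [mon]
  have hnj : ∀ j : Qx p κ, φ (nj y j) = nj (fun i => φ (y i)) j := by
    intro j
    rcases j with a | ab | ab <;> simp [nj, hmon]
  unfold tC
  rw [act_map φ hφ]
  congr 1
  funext x
  rcases x with j | l | l
  · simp only [uC, map_mul, hφ, hnj]
  · simp only [uC, map_mul, hφ', qf_map φ hφ]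
  · simp only [uC, map_zero]

theorem tR_map {p r : ℕ} {κ : Type} [Fintype κ] [DecidableEq κ] {R S : Type*} [CommRing R] [Algebra ℝ R]
    [CommRing S] [Algebra ℝ S] (φ : R →+* S) (hφ : ∀ a : ℝ, φ (algebraMap ℝ R a) = algebraMap ℝ S a)
    (G : Fin r → Matrix (Ix p κ) (Ix p κ) ℝ) (ε : ℝ) (γ : Matrix (Ix p κ) (Ix p κ) ℝ)
    (W : Matrix (Tx p r κ) (Tx p r κ) ℝ) (y : Ix p κ → R) (s : Tx p r κ) :
    φ (tR G ε γ W y s) = tR G ε γ W (fun i => φ (y i)) s := by
  have hmon : ∀ a : Mu p κ, φ (mon y a) = mon (fun i => φ (y i)) a := fun a => by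
    simp [mon]
  have hnj : ∀ j : Qx p κ, φ (nj y j) = nj (fun i => φ (y i)) j := by
    intro j
    rcases j with a | ab | ab <;> simp [nj, hmon]
  unfold tR
  rw [act_map φ hφ]
  congr 1
  funext x
  rcases x with j | l
  · simp only [uR, map_mul, hφ, hnj]
  · simp only [uR, map_zero]

/-- where `g` vanishes the two versions agree. -/
theorem tC_eq_tR {p r : ℕ} {κ : Type} [Fintype κ] [DecidableEq κ] {R : Type*} [CommRing R] [Algebra ℂ R] [Algebra ℝ R]
    (G : Fin r → Matrix (Ix p κ) (Ix p κ) ℝ) (ε : ℝ) (γ : Matrix (Ix p κ) (Ix p κ) ℝ)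
    (W : Matrix (Tx p r κ) (Tx p r κ) ℝ) (y : Ix p κ → R) (hy : ∀ l, qf (G l) y = 0) :
    tC G ε γ W y = tR G ε γ W y := by
  unfold tC tR
  congr 1
  funext x
  rcases x with j | l | l
  · simp only [uC, uR]
  · simp only [uC, uR, hy, mul_zero]
  · simp only [uC, uR]

theorem qf_inc {p r : ℕ} {κ : Type} [Fintype κ] {R : Type*} [CommRing R] [Algebra ℝ R]
    (G : Fin r → Matrix (Ix p κ) (Ix p κ) ℝ) (hG : ∀ l (i j : Fin (p + 1)), G l (Sum.inl i) (Sum.inl j) = 0)
    (x : Fin (p + 1) → R) (l : Fin r) : qf (G l) (inc x : Ix p κ → R) = 0 := by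
  unfold qf
  refine Finset.sum_eq_zero fun i _ => Finset.sum_eq_zero fun j _ => ?_
  rcases i with i | i <;> rcases j with j | j
  · rw [hG, map_zero, zero_mul, zero_mul]
  · simp [inc]
  · simp [inc]
  · simp [inc]

end Pool.Agent.Helper72.BP
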